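import Mathlib

/-!
# Sidon sets and quasi-independent sets: definitions

`PontryaginDual G` is the group of continuous characters of `G`, written multiplicatively in Lean;
its identity element is the trivial character `1`.
-/

namespace Pool.Agent.Helper72.Sidon

variable {G : Type*} [CommGroup G] [TopologicalSpace G]

/-- `Λ` satisfies the Sidon inequality with the constant `C`. -/
def IsSidonWith (C : ℝ) (Λ : Set (PontryaginDual G)) : Prop :=
  ∀ s : Finset (PontryaginDual G), (s : Set (PontryaginDual G)) ⊆ Λ →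
    ∀ a : PontryaginDual G → ℂ,
      ∑ γ ∈ s, ‖a γ‖ ≤ C * ⨆ x : G, ‖∑ γ ∈ s, a γ * (γ x : ℂ)‖

/-- `Λ` is a Sidon set. -/
def IsSidon (Λ : Set (PontryaginDual G)) : Prop := ∃ C : ℝ, IsSidonWith C Λ

/-- `Λ` is quasi-independent: the only relation `∏ γ ^ ε γ = 1` over a finite subset with
coefficients `ε γ ∈ {-1, 0, 1}` is the trivial one. -/
def QuasiIndependent (Λ : Set (PontryaginDual G)) : Prop :=
  ∀ s : Finset (PontryaginDual G), (s : Set (PontryaginDual G)) ⊆ Λ →
    ∀ ε : PontryaginDual G → ℤ, (∀ γ ∈ s, ε γ = -1 ∨ ε γ = 0 ∨ ε γ = 1) →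
      ∏ γ ∈ s, γ ^ ε γ = 1 → ∀ γ ∈ s, ε γ = 0

end Pool.Agent.Helper72.Sidon
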