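import Pool.Agent.Helper72.Sidon.RadoHorn

/-!
# Peeling in abelian groups
-/

namespace Pool.Agent.Helper72.Sidon

open Finset

variable {Γ : Type*} [AddCommGroup Γ]

/-- the tautological family of the members of `A` in `⟨A⟩ / p ⟨A⟩`. -/
noncomputable def cls (p : ℕ) (A : Finset Γ) (a : A) : ModN (AddSubgroup.closure (A : Set Γ)) p :=
  ModN.mkQ p ⟨a, AddSubgroup.subset_closure a.2⟩

/-- the dimension of the span of the family `cls p A`. -/
noncomputable def grank (p : ℕ) [Fact p.Prime] (A : Finset Γ) : ℕ := rk (ZMod p) (cls p A) univ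

/-- quasi-independence of a finite set (coefficients given on all of `Γ`). -/
def QIfin (S : Finset Γ) : Prop :=
  ∀ ε : Γ → ℤ, (∀ γ, ε γ = -1 ∨ ε γ = 0 ∨ ε γ = 1) → ∑ γ ∈ S, ε γ • γ = 0 → ∀ γ ∈ S, ε γ = 0

omit [AddCommGroup Γ] in
lemma sum_filter_coe {M : Type*} [AddCommMonoid M] (A : Finset Γ) (P : Γ → Prop)
    [DecidablePred P] (f : Γ → M) :
    ∑ a ∈ A.filter P, f a = ∑ i ∈ (univ : Finset {a // a ∈ A}).filter (fun i => P i.1), f i.1 := by
  rw [Finset.sum_filter, Finset.sum_filter]
  exact (Finset.sum_coe_sort A (fun a => if P a then f a else 0)).symm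

lemma group_peel [DecidableEq Γ] (p : ℕ) [Fact p.Prime] (A : Finset Γ) (k : ℕ)
    (h : #A < k * grank p A) :
    ∃ T : Finset Γ, T ⊆ A ∧ T ≠ A ∧ ∃ c : Γ → Fin k, ∀ j : Fin k, ∀ ε : Γ → ℤ,
      (∀ γ, ε γ = -1 ∨ ε γ = 0 ∨ ε γ = 1) →
      (∑ a ∈ A.filter (fun a => a ∉ T ∧ c a = j), ε a • a) ∈ AddSubgroup.closure (T : Set Γ) →
      ∀ a ∈ A, a ∉ T → c a = j → ε a = 0 := by
  classical
  have hk : 0 < k := by
    rcases Nat.eq_zero_or_pos k with h0 | h0
    · rw [h0] at h; simp at h
    · exact h0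
  obtain ⟨T, hT, c, hc⟩ := peel (cls p A) k (by rw [Fintype.card_coe]; exact h)
  set T' : Finset Γ := T.map (Function.Embedding.subtype _) with hT'
  have hmemT : ∀ a (ha : a ∈ A), a ∈ T' ↔ (⟨a, ha⟩ : A) ∈ T := by
    intro a ha
    simp [hT', ha]
  have hT'A : T' ⊆ A := by
    intro x hx
    rw [hT', Finset.mem_map] at hx
    obtain ⟨y, -, rfl⟩ := hx
    exact y.2
  refine ⟨T', hT'A, ?_, fun a => if ha : a ∈ A then c ⟨a, ha⟩ else ⟨0, hk⟩, ?_⟩
  · intro heq
    apply hT
    rw [Finset.eq_univ_iff_forall]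
    rintro ⟨a, ha⟩
    rw [← hmemT, heq]
    exact ha
  intro j ε hε hsum a ha haT haj
  set H := AddSubgroup.closure (A : Set Γ) with hH
  -- the subgroup of elements with class in the span of `T`
  let S : AddSubgroup H :=
    (Submodule.span (ZMod p) (cls p A '' (T : Set A))).toAddSubgroup.comap (ModN.mkQ p)
  have hS : AddSubgroup.closure (T' : Set Γ) ≤ S.map H.subtype := by
    rw [AddSubgroup.closure_le]
    intro x hx
    have hxT : x ∈ T' := hx
    have hxA := hT'A hxT
    refine ⟨⟨x, AddSubgroup.subset_closure hxA⟩, ?_, rfl⟩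
    show cls p A ⟨x, hxA⟩ ∈ Submodule.span (ZMod p) (cls p A '' (T : Set A))
    exact Submodule.subset_span ⟨⟨x, hxA⟩, (hmemT x hxA).mp hxT, rfl⟩
  obtain ⟨g, hgS, hg⟩ := hS hsum
  have hg2 : g = ∑ i ∈ (univ : Finset A).filter (fun i => i ∉ T ∧ c i = j),
      ε i • (⟨i, AddSubgroup.subset_closure i.2⟩ : H) := by
    apply Subtype.ext
    rw [AddSubgroup.val_finsetSum]
    rw [AddSubgroup.subtype_apply] at hg
    rw [hg, sum_filter_coe]
    apply Finset.sum_congr
    · apply Finset.filter_congr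
      rintro ⟨i, hi⟩ _
      simp only [hmemT i hi, dif_pos hi]
    · intro i _
      rfl
  have hspan : (∑ i ∈ (univ : Finset A).filter (fun i => i ∉ T ∧ c i = j),
      ((ε i : ℤ) : ZMod p) • cls p A i) ∈ Submodule.span (ZMod p) (cls p A '' (T : Set A)) := by
    have h1 : ModN.mkQ p g ∈ Submodule.span (ZMod p) (cls p A '' (T : Set A)) := hgS
    rw [hg2, map_sum] at h1
    convert h1 using 1
    apply Finset.sum_congr rfl
    intro i _
    rw [map_zsmul, Int.cast_smul_eq_zsmul]
    rfl
  have hzero := hc j (fun i => ((ε i : ℤ) : ZMod p)) hspan ⟨a, ha⟩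
    (fun hh => haT ((hmemT a ha).mpr hh)) (by simpa [ha] using haj)
  simp only at hzero
  rw [ZMod.intCast_zmod_eq_zero_iff_dvd] at hzero
  have hp2 : (2 : ℤ) ≤ p := by exact_mod_cast (Fact.out : p.Prime).two_le
  rcases hε a with h1 | h1 | h1
  · rw [h1] at hzero
    have := Int.le_of_dvd (by norm_num) ((dvd_neg).mpr hzero)
    omega
  · exact h1
  · rw [h1] at hzero
    have := Int.le_of_dvd (by norm_num) hzero
    omega

/-- If every nonempty subset `B` of `A` satisfies `#B < k * dim ⟨B⟩/p⟨B⟩` for some prime `p`, then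
`A` is the union of `k` quasi-independent sets. -/
theorem qi_coloring [DecidableEq Γ] (k : ℕ) (hk : 0 < k) (A : Finset Γ)
    (h : ∀ B : Finset Γ, B ⊆ A → B.Nonempty → ∃ p : ℕ, ∃ _ : Fact p.Prime, #B < k * grank p B) :
    ∃ c : Γ → Fin k, ∀ j : Fin k, QIfin (A.filter (fun a => c a = j)) := by
  classical
  induction A using Finset.strongInduction with
  | H A ih =>
    by_cases hA : A.Nonempty
    · obtain ⟨p, hp, hlt⟩ := h A (Finset.Subset.refl _) hA
      obtain ⟨T, hTA, hTne, c1, hc1⟩ := group_peel p A k hlt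
      obtain ⟨c2, hc2⟩ := ih T (Finset.ssubset_iff_subset_ne.mpr ⟨hTA, hTne⟩)
        (fun B hB hBn => h B (hB.trans hTA) hBn)
      refine ⟨fun a => if a ∈ T then c2 a else c1 a, ?_⟩
      intro j ε hε hsum
      have hsplit : ∑ γ ∈ A.filter (fun a => (if a ∈ T then c2 a else c1 a) = j), ε γ • γ
          = ∑ a ∈ A.filter (fun a => a ∉ T ∧ c1 a = j), ε a • a
            + ∑ a ∈ T.filter (fun a => c2 a = j), ε a • a := by
        rw [← Finset.sum_union]
        · apply Finset.sum_congr _ (fun _ _ => rfl)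
          ext x
          simp only [Finset.mem_filter, Finset.mem_union]
          by_cases hx : x ∈ T
          · simp [hx, hTA hx]
          · simp [hx]
        · rw [Finset.disjoint_left]
          intro x hx hx'
          rw [Finset.mem_filter] at hx hx'
          exact hx.2.1 hx'.1
      rw [hsplit] at hsum
      have hT0 : (∑ a ∈ T.filter (fun a => c2 a = j), ε a • a) ∈
          AddSubgroup.closure (T : Set Γ) := by
        apply AddSubgroup.sum_mem
        intro x hx
        exact AddSubgroup.zsmul_mem _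
          (AddSubgroup.subset_closure (Finset.mem_coe.mpr (Finset.mem_filter.mp hx).1)) _
      have h1 : (∑ a ∈ A.filter (fun a => a ∉ T ∧ c1 a = j), ε a • a) ∈
          AddSubgroup.closure (T : Set Γ) := by
        rw [eq_neg_of_add_eq_zero_left hsum]
        exact AddSubgroup.neg_mem _ hT0
      have h2 := hc1 j ε hε h1
      have h3 : ∑ a ∈ A.filter (fun a => a ∉ T ∧ c1 a = j), ε a • a = 0 := by
        apply Finset.sum_eq_zero
        intro x hx
        rw [Finset.mem_filter] at hx
        rw [h2 x hx.1 hx.2.1 hx.2.2, zero_smul]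
      rw [h3, zero_add] at hsum
      have h4 := hc2 j ε hε hsum
      intro γ hγ
      rw [Finset.mem_filter] at hγ
      have hγ2 : (if γ ∈ T then c2 γ else c1 γ) = j := hγ.2
      by_cases hx : γ ∈ T
      · rw [if_pos hx] at hγ2
        exact h4 γ (Finset.mem_filter.mpr ⟨hx, hγ2⟩)
      · rw [if_neg hx] at hγ2
        exact h2 γ hγ.1 hx hγ2
    · rw [Finset.not_nonempty_iff_eq_empty] at hA
      subst hA
      refine ⟨fun _ => ⟨0, hk⟩, ?_⟩
      intro j ε _ _ γ hγ
      simp at hγ

/-- Compactness: the same for infinite sets. -/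
theorem qi_cover (k : ℕ) (hk : 0 < k) (Λ : Set Γ)
    (h : ∀ B : Finset Γ, (B : Set Γ) ⊆ Λ → B.Nonempty →
      ∃ p : ℕ, ∃ _ : Fact p.Prime, #B < k * grank p B) :
    ∃ c : Γ → Fin k, ∀ j : Fin k, ∀ s : Finset Γ, (∀ γ ∈ s, γ ∈ Λ ∧ c γ = j) → QIfin s := by
  classical
  have hfin : ∀ S : Finset Γ, ∃ c : Γ → Fin k, ∀ j : Fin k,
      QIfin ((S.filter (fun γ => γ ∈ Λ)).filter (fun a => c a = j)) := by
    intro S
    apply qi_coloring k hk
    intro B hB hBn
    apply h B _ hBn
    intro x hx
    exact (Finset.mem_filter.mp (hB (Finset.mem_coe.mp hx))).2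
  choose g hg using hfin
  obtain ⟨χ, hχ⟩ := Finset.rado_selection (β := fun _ : Γ => Fin k) g
  refine ⟨χ, ?_⟩
  intro j s hs ε hε hsum γ hγ
  obtain ⟨t, hst, ht⟩ := hχ s
  have hsub : s ⊆ (t.filter (fun γ => γ ∈ Λ)).filter (fun a => g t a = j) := by
    intro x hx
    rw [Finset.mem_filter, Finset.mem_filter]
    exact ⟨⟨hst hx, (hs x hx).1⟩, by rw [← ht x hx]; exact (hs x hx).2⟩
  have := hg t j (fun x => if x ∈ s then ε x else 0) (by
    intro x
    by_cases hx : x ∈ s
    · simpa [hx] using hε x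
    · simp [hx]) (by
    rw [← hsum, ← Finset.sum_subset hsub]
    · apply Finset.sum_congr rfl
      intro x hx
      rw [if_pos hx]
    · intro x _ hx
      rw [if_neg hx, zero_smul]) γ (hsub hγ)
  simpa [hγ] using this

/-- A generating subset of size at most the sum of the `p`-ranks. -/
lemma gen_subset [DecidableEq Γ] (A : Finset Γ) (m : ℕ) (hm : 0 < m) (hA : ∀ a ∈ A, m • a = 0)
    (N : ℕ) (hN : ∀ p ∈ m.primeFactors, ∀ _ : Fact p.Prime, grank p A ≤ N) :
    ∃ B : Finset Γ, B ⊆ A ∧ #B ≤ #m.primeFactors * N ∧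
      AddSubgroup.closure (B : Set Γ) = AddSubgroup.closure (A : Set Γ) := by
  classical
  set H := AddSubgroup.closure (A : Set Γ) with hH
  -- for each prime a subset
  have hex : ∀ p : ℕ, ∃ B : Finset Γ, B ⊆ A ∧ (p ∈ m.primeFactors → #B ≤ N) ∧
      (p ∈ m.primeFactors → ∀ h ∈ H, ∃ h' ∈ AddSubgroup.closure (B : Set Γ), ∃ g ∈ H,
        h = h' + p • g) := by
    intro p
    by_cases hp : p ∈ m.primeFactors
    swap
    · exact ⟨∅, by simp, fun h => absurd h hp, fun h => absurd h hp⟩
    have hpr : Fact p.Prime := ⟨Nat.prime_of_mem_primeFactors hp⟩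
    obtain ⟨κ, a, hinj, hspan, hli⟩ := exists_linearIndependent' (ZMod p) (cls p A)
    have hκ : Finite κ := Finite.of_injective a hinj
    cases nonempty_fintype κ
    have hcard : Fintype.card κ ≤ N := by
      have h1 := finrank_span_eq_card hli
      rw [hspan] at h1
      have h2 := hN p hp hpr
      unfold grank rk at h2
      rw [Finset.coe_univ, Set.image_univ] at h2
      omega
    set B : Finset Γ := univ.image (fun i : κ => ((a i : A) : Γ)) with hB
    have hBA : B ⊆ A := by
      intro x hx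
      rw [hB, Finset.mem_image] at hx
      obtain ⟨i, -, rfl⟩ := hx
      exact (a i).2
    refine ⟨B, hBA, fun _ => (Finset.card_image_le.trans (by rw [Finset.card_univ]; exact hcard)),
      fun _ => ?_⟩
    intro h hh
    -- every element of `H` has class in the span
    have hall : ModN.mkQ p (⟨h, hh⟩ : H) ∈ Submodule.span (ZMod p) (Set.range (cls p A)) := by
      let S : AddSubgroup H :=
        (Submodule.span (ZMod p) (Set.range (cls p A))).toAddSubgroup.comap (ModN.mkQ p)
      have hS : AddSubgroup.closure (A : Set Γ) ≤ S.map H.subtype := by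
        rw [AddSubgroup.closure_le]
        intro x hx
        refine ⟨⟨x, AddSubgroup.subset_closure hx⟩, ?_, rfl⟩
        exact Submodule.subset_span ⟨⟨x, hx⟩, rfl⟩
      obtain ⟨g, hg, hgh⟩ := hS hh
      have : g = ⟨h, hh⟩ := Subtype.ext hgh
      rw [← this]
      exact hg
    rw [← hspan] at hall
    let K : AddSubgroup H := (AddSubgroup.closure (B : Set Γ)).addSubgroupOf H
    have hK : Submodule.span (ZMod p) (Set.range (cls p A ∘ a)) ≤
        AddSubgroup.toZModSubmodule p (K.map (ModN.mkQ p)) := by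
      rw [Submodule.span_le]
      rintro _ ⟨i, rfl⟩
      refine ⟨⟨(a i : Γ), AddSubgroup.subset_closure (a i).2⟩, ?_, rfl⟩
      show ((a i : A) : Γ) ∈ AddSubgroup.closure (B : Set Γ)
      apply AddSubgroup.subset_closure
      rw [hB]
      simp
    obtain ⟨h', hh', heq⟩ := hK hall
    have hker : ModN.mkQ p ((⟨h, hh⟩ : H) - h') = 0 := by
      rw [map_sub, heq, sub_self]
    have hker2 : ((⟨h, hh⟩ : H) - h') ∈ LinearMap.range (LinearMap.lsmul ℤ H (p : ℤ)) :=
      (Submodule.Quotient.mk_eq_zero _).mp hker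
    obtain ⟨g, hg⟩ := hker2
    refine ⟨h', hh', g, g.2, ?_⟩
    have h3 := congrArg (Subtype.val) hg
    simp only [LinearMap.lsmul_apply, AddSubgroup.coe_sub] at h3
    rw [← sub_eq_iff_eq_add', ← h3]
    simp
  choose B hBA hBN hBgen using hex
  set BB : Finset Γ := m.primeFactors.biUnion B with hBB
  have hBBA : BB ⊆ A := by
    intro x hx
    rw [hBB, Finset.mem_biUnion] at hx
    obtain ⟨p, -, hx⟩ := hx
    exact hBA p hx
  refine ⟨BB, hBBA, ?_, ?_⟩
  · calc #BB ≤ ∑ p ∈ m.primeFactors, #(B p) := Finset.card_biUnion_le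
      _ ≤ ∑ p ∈ m.primeFactors, N := Finset.sum_le_sum (fun p hp => hBN p hp)
      _ = #m.primeFactors * N := by rw [Finset.sum_const, smul_eq_mul]
  · apply le_antisymm
    · exact AddSubgroup.closure_mono (by exact_mod_cast hBBA)
    · set H' := AddSubgroup.closure (BB : Set Γ) with hH'
      have hH'H : H' ≤ H := AddSubgroup.closure_mono (by exact_mod_cast hBBA)
      have hP : ∀ d : ℕ, d ∣ m → ∀ h ∈ H, ∃ h' ∈ H', ∃ g ∈ H, h = h' + d • g := by
        intro d
        induction d using induction_on_primes with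
        | zero =>
          intro h0
          rw [zero_dvd_iff] at h0
          omega
        | one =>
          intro _ h hh
          exact ⟨0, H'.zero_mem, h, hh, by simp⟩
        | prime_mul p d hp ih =>
          intro hd h hh
          have hpm : p ∈ m.primeFactors :=
            Nat.mem_primeFactors.mpr ⟨hp, (Dvd.intro _ rfl).trans hd, by omega⟩
          obtain ⟨h1, hh1, g1, hg1, e1⟩ := ih ((Dvd.intro_left _ rfl).trans hd) h hh
          obtain ⟨h2, hh2, g2, hg2, e2⟩ := hBgen p hpm g1 hg1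
          have hle : AddSubgroup.closure (B p : Set Γ) ≤ H' := by
            apply AddSubgroup.closure_mono
            intro x hx
            rw [hBB, Finset.mem_coe, Finset.mem_biUnion]
            exact ⟨p, hpm, hx⟩
          refine ⟨h1 + d • h2, H'.add_mem hh1 (H'.nsmul_mem (hle hh2) d), g2, hg2, ?_⟩
          rw [e1, e2, smul_add, add_assoc, mul_comm p d, mul_smul]
      intro h hh
      obtain ⟨h', hh', g, hg, e⟩ := hP m (dvd_refl m) h hh
      have hmg : m • g = 0 := by
        have : H ≤ (AddMonoidHom.ker (nsmulAddMonoidHom m : Γ →+ Γ)) := by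
          rw [hH, AddSubgroup.closure_le]
          intro x hx
          exact hA x hx
        exact this hg
      rw [e, hmg, add_zero]
      exact hh'

end Pool.Agent.Helper72.Sidon
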