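import Pool.Agent.Helper72.Sidon.Defs
import Pool.Agent.Helper72.Sidon.Group

/-!
# From the Sidon inequality to a rank inequality
-/

namespace Pool.Agent.Helper72.Sidon

open Finset Real

/-- random signs -/
lemma exists_signs {α : Type*} [Fintype α] [DecidableEq α] (R : Finset (α → ℝ))
    (hR : ∀ r ∈ R, ∀ a, |r a| ≤ 1) (hne : R.Nonempty) (t : ℝ) :
    ∃ σ : α → ℝ, (∀ a, σ a = 1 ∨ σ a = -1) ∧
      ∀ r ∈ R, t * |∑ a, σ a * r a| ≤ log (2 * #R) + t ^ 2 * Fintype.card α / 2 := by
  classical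
  set n := Fintype.card α with hn
  set S : Finset (α → ℝ) := Fintype.piFinset (fun _ : α => ({1, -1} : Finset ℝ)) with hS
  have hcardS : (#S : ℝ) = 2 ^ n := by
    rw [hS, Fintype.card_piFinset]
    have : #({1, -1} : Finset ℝ) = 2 := Finset.card_pair (by norm_num)
    simp [this, hn]
  have hSne : S.Nonempty := by
    rw [← Finset.card_pos]
    have : (0 : ℝ) < #S := by rw [hcardS]; positivity
    exact_mod_cast this
  -- exponential moments
  have hmom : ∀ (s : ℝ), ∀ r ∈ R, ∑ σ ∈ S, exp (s * ∑ a, σ a * r a) ≤ 2 ^ n * exp (s ^ 2 * n / 2) := by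
    intro s r hr
    have h1 : ∀ σ ∈ S, exp (s * ∑ a, σ a * r a) = ∏ a, exp (s * (σ a * r a)) := by
      intro σ _
      rw [← exp_sum, Finset.mul_sum]
    rw [Finset.sum_congr rfl h1, hS,
      ← Finset.prod_univ_sum (fun _ : α => ({1, -1} : Finset ℝ)) (fun a b => exp (s * (b * r a)))]
    have h2 : ∀ a : α, ∑ b ∈ ({1, -1} : Finset ℝ), exp (s * (b * r a)) ≤ 2 * exp (s ^ 2 / 2) := by
      intro a
      rw [Finset.sum_pair (by norm_num)]
      have h3 : exp (s * (1 * r a)) + exp (s * (-1 * r a)) = 2 * cosh (s * r a) := by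
        rw [cosh_eq]; ring_nf
      rw [h3]
      have h4 := cosh_le_exp_half_sq (s * r a)
      have h5 : (s * r a) ^ 2 / 2 ≤ s ^ 2 / 2 := by
        have : (r a) ^ 2 ≤ 1 := by
          rw [← sq_abs]
          have := hR r hr a
          have := abs_nonneg (r a)
          nlinarith
        rw [mul_pow]
        nlinarith [sq_nonneg s]
      have h6 := exp_le_exp.mpr h5
      linarith
    calc ∏ a, ∑ b ∈ ({1, -1} : Finset ℝ), exp (s * (b * r a)) ≤ ∏ _a : α, (2 * exp (s ^ 2 / 2)) := by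
          apply Finset.prod_le_prod
          · intro a _
            exact Finset.sum_nonneg (fun b _ => (exp_pos _).le)
          · intro a _
            exact h2 a
      _ = 2 ^ n * exp (s ^ 2 * n / 2) := by
          rw [Finset.prod_const, Finset.card_univ, ← hn, mul_pow, ← exp_nat_mul]
          congr 2
          ring
  have hex : ∃ σ ∈ S, ∑ r ∈ R, (exp (t * ∑ a, σ a * r a) + exp (-t * ∑ a, σ a * r a))
      ≤ 2 * #R * exp (t ^ 2 * n / 2) := by
    apply Finset.exists_le_of_sum_le hSne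
    rw [Finset.sum_comm]
    calc ∑ r ∈ R, ∑ σ ∈ S, (exp (t * ∑ a, σ a * r a) + exp (-t * ∑ a, σ a * r a))
        ≤ ∑ _r ∈ R, 2 * (2 ^ n * exp (t ^ 2 * n / 2)) := by
          apply Finset.sum_le_sum
          intro r hr
          rw [Finset.sum_add_distrib]
          have h1 := hmom t r hr
          have h2 := hmom (-t) r hr
          rw [neg_sq] at h2
          linarith
      _ = ∑ _σ ∈ S, 2 * #R * exp (t ^ 2 * n / 2) := by
          rw [Finset.sum_const, Finset.sum_const, nsmul_eq_mul, nsmul_eq_mul, hcardS]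
          ring
  obtain ⟨σ, hσ, hle⟩ := hex
  refine ⟨σ, ?_, ?_⟩
  · intro a
    rw [hS, Fintype.mem_piFinset] at hσ
    simpa using hσ a
  · intro r hr
    have h1 : exp (t * |∑ a, σ a * r a|) ≤ exp (t * ∑ a, σ a * r a) + exp (-t * ∑ a, σ a * r a) := by
      rcases abs_cases (∑ a, σ a * r a) with ⟨h, _⟩ | ⟨h, _⟩
      · rw [h]
        linarith [exp_pos (-t * ∑ a, σ a * r a)]
      · rw [h]
        have : t * -∑ a, σ a * r a = -t * ∑ a, σ a * r a := by ring
        rw [this]
        linarith [exp_pos (t * ∑ a, σ a * r a)]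
    have h2 : exp (t * ∑ a, σ a * r a) + exp (-t * ∑ a, σ a * r a) ≤
        ∑ r ∈ R, (exp (t * ∑ a, σ a * r a) + exp (-t * ∑ a, σ a * r a)) :=
      Finset.single_le_sum (f := fun r => exp (t * ∑ a, σ a * r a) + exp (-t * ∑ a, σ a * r a))
        (fun r _ => by positivity) hr
    have h3 : exp (t * |∑ a, σ a * r a|) ≤ 2 * #R * exp (t ^ 2 * n / 2) := h1.trans (h2.trans hle)
    have hRpos : (0 : ℝ) < #R := by exact_mod_cast hne.card_pos
    have h4 := log_le_log (exp_pos _) h3
    rw [log_exp, log_mul (by positivity) (exp_pos _).ne', log_exp] at h4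
    exact h4

variable {G : Type*} [CommGroup G] [TopologicalSpace G]

/-- cardinality estimate for Sidon sets -/
lemma sidon_card {C : ℝ} (hC : 0 < C) {Λ : Set (PontryaginDual G)} (h : IsSidonWith C Λ)
    (A : Finset (PontryaginDual G)) (hA : (A : Set (PontryaginDual G)) ⊆ Λ)
    (X : Finset G) (hX : ∀ x : G, ∃ x' ∈ X, ∀ γ ∈ A, γ x = γ x') :
    (#A : ℝ) ≤ 8 * C ^ 2 * log (4 * #X) := by
  classical
  set R : Finset (A → ℝ) := X.image (fun x => fun γ : A => ((γ.1 x : Circle) : ℂ).re) ∪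
    X.image (fun x => fun γ : A => ((γ.1 x : Circle) : ℂ).im) with hR
  obtain ⟨x0, hx0, -⟩ := hX 1
  have hXpos : (0 : ℝ) < #X := by exact_mod_cast Finset.card_pos.mpr ⟨x0, hx0⟩
  have hRne : R.Nonempty := ⟨_, Finset.mem_union_left _ (Finset.mem_image_of_mem _ hx0)⟩
  have hRcard : #R ≤ 2 * #X := by
    calc #R ≤ _ := Finset.card_union_le _ _
      _ ≤ #X + #X := add_le_add Finset.card_image_le Finset.card_image_le
      _ = 2 * #X := by ring
  have hR1 : ∀ r ∈ R, ∀ a, |r a| ≤ 1 := by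
    intro r hr a
    rw [hR, Finset.mem_union, Finset.mem_image, Finset.mem_image] at hr
    rcases hr with ⟨x, -, rfl⟩ | ⟨x, -, rfl⟩
    · exact (Complex.abs_re_le_norm _).trans (Circle.norm_coe _).le
    · exact (Complex.abs_im_le_norm _).trans (Circle.norm_coe _).le
  obtain ⟨σ, hσ, hσR⟩ := exists_signs R hR1 hRne (1 / (2 * C))
  rw [Fintype.card_coe] at hσR
  have hRpos : (0 : ℝ) < #R := by exact_mod_cast hRne.card_pos
  set M : ℝ := 2 * C * (log (4 * #X) + (1 / (2 * C)) ^ 2 * #A / 2) with hM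
  have hσR' : ∀ r ∈ R, |∑ a, σ a * r a| ≤ M := by
    intro r hr
    have h1 := hσR r hr
    have h2 : log (2 * #R) ≤ log (4 * #X) := by
      apply log_le_log (by positivity)
      have : (#R : ℝ) ≤ 2 * #X := by exact_mod_cast hRcard
      linarith
    have h3 : 1 / (2 * C) * |∑ a, σ a * r a| ≤ log (4 * #X) + (1 / (2 * C)) ^ 2 * #A / 2 := by
      linarith
    rw [hM]
    calc |∑ a, σ a * r a| = 2 * C * (1 / (2 * C) * |∑ a, σ a * r a|) := by
          field_simp
      _ ≤ _ := mul_le_mul_of_nonneg_left h3 (by positivity)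
  -- apply the Sidon inequality
  let a : PontryaginDual G → ℂ := fun γ => if hγ : γ ∈ A then ((σ ⟨γ, hγ⟩ : ℝ) : ℂ) else 0
  have hs := h A hA a
  have hsum : ∑ γ ∈ A, ‖a γ‖ = #A := by
    have : ∀ γ ∈ A, ‖a γ‖ = 1 := by
      intro γ hγ
      simp only [a, dif_pos hγ]
      rcases hσ ⟨γ, hγ⟩ with h1 | h1 <;> rw [h1] <;> simp
    rw [Finset.sum_congr rfl this]
    simp
  have hsup : (⨆ x : G, ‖∑ γ ∈ A, a γ * (γ x : ℂ)‖) ≤ 2 * M := by
    apply ciSup_le
    intro x
    obtain ⟨x', hx', hxx'⟩ := hX x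
    have heq : ∑ γ ∈ A, a γ * (γ x : ℂ) = ∑ γ : A, ((σ γ : ℝ) : ℂ) * ((γ.1 x' : Circle) : ℂ) := by
      rw [← Finset.sum_coe_sort A]
      apply Finset.sum_congr rfl
      intro γ _
      simp only [a, dif_pos γ.2, hxx' γ.1 γ.2]
    rw [heq]
    refine (Complex.norm_le_abs_re_add_abs_im _).trans ?_
    have hre : (∑ γ : A, ((σ γ : ℝ) : ℂ) * ((γ.1 x' : Circle) : ℂ)).re
        = ∑ γ : A, σ γ * ((γ.1 x' : Circle) : ℂ).re := by
      rw [Complex.re_sum]
      apply Finset.sum_congr rfl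
      intro γ _
      rw [Complex.re_ofReal_mul]
    have him : (∑ γ : A, ((σ γ : ℝ) : ℂ) * ((γ.1 x' : Circle) : ℂ)).im
        = ∑ γ : A, σ γ * ((γ.1 x' : Circle) : ℂ).im := by
      rw [Complex.im_sum]
      apply Finset.sum_congr rfl
      intro γ _
      rw [Complex.im_ofReal_mul]
    rw [hre, him]
    have h1 : |∑ γ : A, σ γ * ((γ.1 x' : Circle) : ℂ).re| ≤ M :=
      hσR' (fun γ : A => ((γ.1 x' : Circle) : ℂ).re)
        (Finset.mem_union_left _ (Finset.mem_image_of_mem _ hx'))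
    have h2 : |∑ γ : A, σ γ * ((γ.1 x' : Circle) : ℂ).im| ≤ M :=
      hσR' (fun γ : A => ((γ.1 x' : Circle) : ℂ).im)
        (Finset.mem_union_right _ (Finset.mem_image_of_mem _ hx'))
    linarith
  rw [hsum] at hs
  have hfin : (#A : ℝ) ≤ C * (2 * M) := hs.trans (mul_le_mul_of_nonneg_left hsup hC.le)
  have hMexp : C * (2 * M) = 4 * C ^ 2 * log (4 * #X) + #A / 2 := by
    rw [hM]
    field_simp
    ring
  rw [hMexp] at hfin
  linarith

/-- evaluation at a point -/
noncomputable def evalHom (x : G) : PontryaginDual G →* Circle where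
  toFun γ := γ x
  map_one' := rfl
  map_mul' _ _ := rfl

/-- the number of restrictions -/
lemma exists_patterns (m : ℕ) (hm : 0 < m) (A B : Finset (Additive (PontryaginDual G)))
    (hexp : ∀ γ ∈ B, m • γ = 0)
    (hBA : (A : Set (Additive (PontryaginDual G))) ⊆
      AddSubgroup.closure (B : Set (Additive (PontryaginDual G)))) :
    ∃ X : Finset G, #X ≤ m ^ #B ∧ ∀ x : G, ∃ x' ∈ X, ∀ γ ∈ A, γ.toMul x = γ.toMul x' := by
  classical
  let ρ : G → (B → ℂ) := fun x γ => ((γ.1.toMul x : Circle) : ℂ)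
  set P : Finset (B → ℂ) := Fintype.piFinset (fun _ : B => Polynomial.nthRootsFinset m (1 : ℂ)) with hP
  have hρP : ∀ x, ρ x ∈ P := by
    intro x
    rw [hP, Fintype.mem_piFinset]
    intro γ
    rw [Polynomial.mem_nthRootsFinset hm]
    have h1 := hexp γ.1 γ.2
    have h2 : (γ.1.toMul) ^ m = 1 := h1
    have h3 : (γ.1.toMul x) ^ m = 1 := by
      have h4 : evalHom x (γ.1.toMul ^ m) = 1 := by rw [h2, map_one]
      rw [map_pow] at h4
      exact h4
    show (((γ.1.toMul x : Circle) : ℂ)) ^ m = 1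
    rw [← Circle.coe_pow, h3, Circle.coe_one]
  have hPcard : #P ≤ m ^ #B := by
    rw [hP, Fintype.card_piFinset]
    calc ∏ _i : B, #(Polynomial.nthRootsFinset m (1 : ℂ)) ≤ ∏ _i : B, m := by
          apply Finset.prod_le_prod (fun _ _ => Nat.zero_le _)
          intro _ _
          refine (Multiset.toFinset_card_le _).trans (Polynomial.card_nthRoots m (1 : ℂ))
      _ = m ^ #B := by simp
  -- choose representatives
  have hrep : ∀ q : B → ℂ, ∃ x : G, (∃ y, ρ y = q) → ρ x = q := by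
    intro q
    by_cases hq : ∃ y, ρ y = q
    · obtain ⟨y, hy⟩ := hq
      exact ⟨y, fun _ => hy⟩
    · exact ⟨1, fun h => absurd h hq⟩
  choose f hf using hrep
  refine ⟨P.image f, Finset.card_image_le.trans hPcard, ?_⟩
  intro x
  refine ⟨f (ρ x), Finset.mem_image_of_mem _ (hρP x), ?_⟩
  have heq : ρ (f (ρ x)) = ρ x := hf _ ⟨x, rfl⟩
  -- the subgroup of characters agreeing on both points
  let S : AddSubgroup (Additive (PontryaginDual G)) :=
    Subgroup.toAddSubgroup ((evalHom x).eqLocus (evalHom (f (ρ x))))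
  have hS : AddSubgroup.closure (B : Set (Additive (PontryaginDual G))) ≤ S := by
    rw [AddSubgroup.closure_le]
    intro γ hγ
    have := congrFun heq ⟨γ, hγ⟩
    show γ.toMul x = γ.toMul (f (ρ x))
    exact (Circle.coe_injective this).symm
  intro γ hγ
  exact hS (hBA hγ)

/-- The combinatorial hypothesis holds for Sidon sets in groups of bounded exponent. -/
lemma sidon_grank {C : ℝ} (hC : 0 < C) {Λ : Set (PontryaginDual G)} (h1 : 1 ∉ Λ)
    (h : IsSidonWith C Λ) (m : ℕ) (hm : 0 < m) (hexp : ∀ γ ∈ Λ, γ ^ m = 1)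
    (k : ℕ) (hk : 8 * C ^ 2 * log (4 * m) * #m.primeFactors < k)
    (B : Finset (Additive (PontryaginDual G)))
    (hB : (B : Set (Additive (PontryaginDual G))) ⊆ Additive.toMul ⁻¹' Λ) (hBn : B.Nonempty) :
    ∃ p : ℕ, ∃ _ : Fact p.Prime, #B < k * grank p B := by
  classical
  by_contra hcon
  push Not at hcon
  have hkpos : (0 : ℝ) < k := by
    refine lt_of_le_of_lt ?_ hk
    have hm1 : (1 : ℝ) ≤ m := by exact_mod_cast hm
    have : 0 ≤ log (4 * m) := log_nonneg (by linarith)
    positivity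
  have hk0 : 0 < k := by exact_mod_cast hkpos
  have hexpB : ∀ a ∈ B, m • a = 0 := by
    intro a ha
    have h2 : a.toMul ^ m = 1 := hexp a.toMul (hB (Finset.mem_coe.mpr ha))
    exact h2
  obtain ⟨B', hB'B, hB'c, hB'cl⟩ := gen_subset B m hm hexpB (#B / k) (by
    intro p hp hpf
    rw [Nat.le_div_iff_mul_le hk0, mul_comm]
    exact hcon p hpf)
  have hBB' : (B : Set (Additive (PontryaginDual G))) ⊆
      AddSubgroup.closure (B' : Set (Additive (PontryaginDual G))) := by
    rw [hB'cl]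
    exact AddSubgroup.subset_closure
  obtain ⟨X, hXc, hX⟩ := exists_patterns m hm B B' (fun a ha => hexpB a (hB'B ha)) hBB'
  -- `B'` is nonempty
  have hB'n : 1 ≤ #B' := by
    rw [Nat.one_le_iff_ne_zero, Finset.card_ne_zero]
    by_contra hemp
    rw [Finset.not_nonempty_iff_eq_empty] at hemp
    rw [hemp, Finset.coe_empty, AddSubgroup.closure_empty] at hBB'
    obtain ⟨b, hb⟩ := hBn
    have hb0 : b = 0 := by simpa using hBB' (Finset.mem_coe.mpr hb)
    have := hB (Finset.mem_coe.mpr hb)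
    rw [hb0] at this
    exact h1 this
  -- the estimate
  set A : Finset (PontryaginDual G) := B.map (Additive.toMul.toEmbedding) with hA
  have hcardA : #A = #B := Finset.card_map _
  have hAΛ : (A : Set (PontryaginDual G)) ⊆ Λ := by
    intro x hx
    rw [hA, Finset.coe_map] at hx
    obtain ⟨y, hy, rfl⟩ := hx
    exact hB hy
  have hest := sidon_card hC h A hAΛ X (by
    intro x
    obtain ⟨x', hx', hxx'⟩ := hX x
    refine ⟨x', hx', ?_⟩
    intro γ hγ
    rw [hA, Finset.mem_map] at hγ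
    obtain ⟨y, hy, rfl⟩ := hγ
    exact hxx' y hy)
  rw [hcardA] at hest
  obtain ⟨x', hx', -⟩ := hX 1
  have hXpos : (0 : ℝ) < #X := by exact_mod_cast Finset.card_pos.mpr ⟨x', hx'⟩
  have hmpos : (0 : ℝ) < m := by exact_mod_cast hm
  have hm1 : (1 : ℝ) ≤ m := by exact_mod_cast hm
  have hlogm : 0 ≤ log (4 * m) := log_nonneg (by linarith)
  have hlog : log (4 * #X) ≤ #B' * log (4 * m) := by
    have e1 : (#X : ℝ) ≤ m ^ #B' := by exact_mod_cast hXc
    calc log (4 * #X) ≤ log ((4 * m) ^ #B') := by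
          apply log_le_log (by positivity)
          rw [mul_pow]
          have e2 : (4 : ℝ) ≤ 4 ^ #B' := by
            calc (4 : ℝ) = 4 ^ 1 := by norm_num
              _ ≤ 4 ^ #B' := pow_le_pow_right₀ (by norm_num) hB'n
          exact mul_le_mul e2 e1 hXpos.le (by positivity)
      _ = #B' * log (4 * m) := by rw [log_pow]
  have hB'r : (#B' : ℝ) ≤ #m.primeFactors * (#B / k) := by
    have e1 : (#B' : ℝ) ≤ #m.primeFactors * ((#B / k : ℕ) : ℝ) := by exact_mod_cast hB'c
    have e2 : ((#B / k : ℕ) : ℝ) ≤ (#B : ℝ) / k := Nat.cast_div_le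
    calc (#B' : ℝ) ≤ #m.primeFactors * ((#B / k : ℕ) : ℝ) := e1
      _ ≤ #m.primeFactors * (#B / k) := mul_le_mul_of_nonneg_left e2 (by positivity)
  have hBpos : (0 : ℝ) < #B := by exact_mod_cast hBn.card_pos
  have hfinal : (#B : ℝ) ≤ 8 * C ^ 2 * log (4 * m) * #m.primeFactors * (#B / k) := by
    calc (#B : ℝ) ≤ 8 * C ^ 2 * log (4 * #X) := hest
      _ ≤ 8 * C ^ 2 * (#B' * log (4 * m)) := mul_le_mul_of_nonneg_left hlog (by positivity)
      _ = 8 * C ^ 2 * log (4 * m) * #B' := by ring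
      _ ≤ 8 * C ^ 2 * log (4 * m) * (#m.primeFactors * (#B / k)) :=
          mul_le_mul_of_nonneg_left hB'r (by positivity)
      _ = _ := by ring
  have hlt : 8 * C ^ 2 * log (4 * m) * #m.primeFactors * (#B / k) < k * (#B / k) :=
    mul_lt_mul_of_pos_right hk (by positivity)
  have heq : (k : ℝ) * (#B / k) = #B := by field_simp
  linarith

lemma IsSidonWith.mono {C C' : ℝ} (hCC' : C ≤ C') {Λ : Set (PontryaginDual G)}
    (h : IsSidonWith C Λ) : IsSidonWith C' Λ := by
  intro s hs a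
  refine (h s hs a).trans (mul_le_mul_of_nonneg_right hCC' ?_)
  exact Real.iSup_nonneg (fun x => norm_nonneg _)

/-- Main theorem. -/
theorem sidon_main (C : ℝ) (m : ℕ) (hm : 0 < m) : ∃ K : ℕ, ∀ (G : Type*) [CommGroup G]
    [TopologicalSpace G] (Λ : Set (PontryaginDual G)), 1 ∉ Λ → (∀ γ ∈ Λ, γ ^ m = 1) →
      IsSidonWith C Λ →
        ∃ E : Fin K → Set (PontryaginDual G), (∀ i, QuasiIndependent (E i)) ∧ Λ = ⋃ i, E i := by
  set C' : ℝ := max C 1 with hC'
  have hC'pos : 0 < C' := lt_of_lt_of_le one_pos (le_max_right _ _)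
  obtain ⟨k, hk⟩ := exists_nat_gt (8 * C' ^ 2 * log (4 * m) * #m.primeFactors)
  have hm1 : (1 : ℝ) ≤ m := by exact_mod_cast hm
  have hk0 : 0 < k := by
    have : (0 : ℝ) < k := by
      refine lt_of_le_of_lt ?_ hk
      have : 0 ≤ log (4 * m) := log_nonneg (by linarith)
      positivity
    exact_mod_cast this
  refine ⟨k, ?_⟩
  intro G _ _ Λ h1 hexp h
  obtain ⟨c, hc⟩ := qi_cover k hk0 (Additive.toMul ⁻¹' Λ)
    (fun B hB hBn => sidon_grank hC'pos h1 (h.mono (le_max_left _ _)) m hm hexp k hk B hB hBn)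
  refine ⟨fun j => {γ | γ ∈ Λ ∧ c (Additive.ofMul γ) = j}, ?_, ?_⟩
  · intro j s hs ε hε hprod γ hγ
    classical
    have hQ := hc j (s.map Additive.ofMul.toEmbedding) (by
      intro x hx
      rw [Finset.mem_map] at hx
      obtain ⟨y, hy, rfl⟩ := hx
      exact hs hy)
    have := hQ (fun x => if x.toMul ∈ s then ε x.toMul else 0) (by
      intro x
      by_cases hx : x.toMul ∈ s
      · simpa [hx] using hε _ hx
      · simp [hx]) (by
      rw [Finset.sum_map]
      have : ∀ x ∈ s, (if (Additive.ofMul.toEmbedding x).toMul ∈ s then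
          ε (Additive.ofMul.toEmbedding x).toMul else 0) • (Additive.ofMul.toEmbedding x)
          = Additive.ofMul (x ^ ε x) := by
        intro x hx
        simp [hx]
      rw [Finset.sum_congr rfl this, ← ofMul_prod, hprod]
      rfl) (Additive.ofMul γ) (by simpa using hγ)
    simpa [hγ] using this
  · ext γ
    simp

end Pool.Agent.Helper72.Sidon
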