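import Mathlib

/-!
# The partition theorem of Rado, Horn and Edmonds

For a rank function `r` on the subsets of a finite set, if `#J ≤ k * r J` for all `J` then the
ground set can be partitioned into `k` independent sets.
-/

namespace Pool.Agent.Helper72.Sidon

open Finset

section abstract

variable {ι : Type*} [Fintype ι] [DecidableEq ι] {k : ℕ}

/-- one reduction step for lists of admissible colours. -/
lemma reduce_step (r : Finset ι → ℕ) (hmono : ∀ X Y, X ⊆ Y → r X ≤ r Y)
    (hsub : ∀ X Y, r (X ∪ Y) + r (X ∩ Y) ≤ r X + r Y)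
    (L : ι → Finset (Fin k))
    (hL : ∀ J : Finset ι, #J ≤ ∑ c : Fin k, r (J.filter (fun i => c ∈ L i)))
    (i0 : ι) (c1 c2 : Fin k) (h1 : c1 ∈ L i0) (h2 : c2 ∈ L i0) (h12 : c1 ≠ c2) :
    (∀ J : Finset ι, #J ≤ ∑ c : Fin k,
      r (J.filter (fun i => c ∈ Function.update L i0 ((L i0).erase c1) i))) ∨
    (∀ J : Finset ι, #J ≤ ∑ c : Fin k,
      r (J.filter (fun i => c ∈ Function.update L i0 ((L i0).erase c2) i))) := by
  by_contra hcon
  rw [not_or] at hcon
  obtain ⟨hA, hB⟩ := hcon
  push Not at hA hB
  obtain ⟨J1, hJ1⟩ := hA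
  obtain ⟨J2, hJ2⟩ := hB
  set L1 := Function.update L i0 ((L i0).erase c1) with hL1
  set L2 := Function.update L i0 ((L i0).erase c2) with hL2
  have hL1i : ∀ i, i ≠ i0 → L1 i = L i := fun i hi => Function.update_of_ne hi _ _
  have hL2i : ∀ i, i ≠ i0 → L2 i = L i := fun i hi => Function.update_of_ne hi _ _
  have hL10 : L1 i0 = (L i0).erase c1 := Function.update_self _ _ _
  have hL20 : L2 i0 = (L i0).erase c2 := Function.update_self _ _ _
  -- `i0` belongs to both sets
  have mem1 : i0 ∈ J1 := by
    by_contra hn
    have : ∀ c : Fin k, J1.filter (fun i => c ∈ L1 i) = J1.filter (fun i => c ∈ L i) := by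
      intro c
      apply Finset.filter_congr
      intro i hi
      rw [hL1i i (fun h => hn (h ▸ hi))]
    simp_rw [this] at hJ1
    exact absurd (hL J1) (not_le.mpr hJ1)
  have mem2 : i0 ∈ J2 := by
    by_contra hn
    have : ∀ c : Fin k, J2.filter (fun i => c ∈ L2 i) = J2.filter (fun i => c ∈ L i) := by
      intro c
      apply Finset.filter_congr
      intro i hi
      rw [hL2i i (fun h => hn (h ▸ hi))]
    simp_rw [this] at hJ2
    exact absurd (hL J2) (not_le.mpr hJ2)
  have key : ∀ c : Fin k,
      r ((J1 ∪ J2).filter (fun i => c ∈ L i)) + r (((J1 ∩ J2).erase i0).filter (fun i => c ∈ L i))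
        ≤ r (J1.filter (fun i => c ∈ L1 i)) + r (J2.filter (fun i => c ∈ L2 i)) := by
    intro c
    refine le_trans ?_ (hsub _ _)
    apply add_le_add
    · apply hmono
      intro i hi
      rw [Finset.mem_filter, Finset.mem_union] at hi
      rw [Finset.mem_union, Finset.mem_filter, Finset.mem_filter]
      by_cases h0 : i = i0
      · subst h0
        rw [hL10, hL20, Finset.mem_erase, Finset.mem_erase]
        by_cases hc : c = c1
        · right
          exact ⟨mem2, fun h => h12 (hc.symm.trans h), hi.2⟩
        · left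
          exact ⟨mem1, hc, hi.2⟩
      · rw [hL1i i h0, hL2i i h0]
        rcases hi.1 with h | h
        · exact Or.inl ⟨h, hi.2⟩
        · exact Or.inr ⟨h, hi.2⟩
    · apply hmono
      intro i hi
      rw [Finset.mem_filter, Finset.mem_erase, Finset.mem_inter] at hi
      rw [Finset.mem_inter, Finset.mem_filter, Finset.mem_filter, hL1i i hi.1.1, hL2i i hi.1.1]
      exact ⟨⟨hi.1.2.1, hi.2⟩, ⟨hi.1.2.2, hi.2⟩⟩
  have hsum := Finset.sum_le_sum (fun (c : Fin k) (_ : c ∈ univ) => key c)
  rw [Finset.sum_add_distrib, Finset.sum_add_distrib] at hsum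
  have e1 := hL (J1 ∪ J2)
  have e2 := hL ((J1 ∩ J2).erase i0)
  have e3 : #((J1 ∩ J2).erase i0) = #(J1 ∩ J2) - 1 :=
    Finset.card_erase_of_mem (Finset.mem_inter.mpr ⟨mem1, mem2⟩)
  have e4 : 0 < #(J1 ∩ J2) := Finset.card_pos.mpr ⟨i0, Finset.mem_inter.mpr ⟨mem1, mem2⟩⟩
  have e5 := Finset.card_union_add_card_inter J1 J2
  omega

/-- Rado, Horn, Edmonds (abstract form). -/
theorem exists_partition (r : Finset ι → ℕ) (hmono : ∀ X Y, X ⊆ Y → r X ≤ r Y)
    (hsub : ∀ X Y, r (X ∪ Y) + r (X ∩ Y) ≤ r X + r Y) (hcard : ∀ X, r X ≤ #X)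
    (h : ∀ J : Finset ι, #J ≤ k * r J) :
    ∃ c : ι → Fin k, ∀ j : Fin k,
      #(univ.filter (fun i => c i = j)) = r (univ.filter (fun i => c i = j)) := by
  have gen : ∀ (N : ℕ) (L : ι → Finset (Fin k)), ∑ i, #(L i) = N →
      (∀ J : Finset ι, #J ≤ ∑ c : Fin k, r (J.filter (fun i => c ∈ L i))) →
      ∃ L' : ι → Finset (Fin k), (∀ i, #(L' i) ≤ 1) ∧
        (∀ J : Finset ι, #J ≤ ∑ c : Fin k, r (J.filter (fun i => c ∈ L' i))) := by
    intro N
    induction N using Nat.strong_induction_on with
    | _ N ih =>
      intro L hN hL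
      by_cases hall : ∀ i, #(L i) ≤ 1
      · exact ⟨L, hall, hL⟩
      · push Not at hall
        obtain ⟨i0, hi0⟩ := hall
        obtain ⟨c1, h1, c2, h2, h12⟩ := Finset.one_lt_card.mp hi0
        have hlt : ∀ c ∈ L i0, ∑ i, #(Function.update L i0 ((L i0).erase c) i) < N := by
          intro c hc
          rw [← hN]
          apply Finset.sum_lt_sum
          · intro i _
            by_cases h0 : i = i0
            · subst h0
              rw [Function.update_self]
              exact Finset.card_erase_le
            · rw [Function.update_of_ne h0]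
          · refine ⟨i0, Finset.mem_univ _, ?_⟩
            rw [Function.update_self]
            exact Finset.card_erase_lt_of_mem hc
        rcases reduce_step r hmono hsub L hL i0 c1 c2 h1 h2 h12 with h' | h'
        · exact ih _ (hlt c1 h1) _ rfl h'
        · exact ih _ (hlt c2 h2) _ rfl h'
  obtain ⟨L, hL1, hL⟩ := gen _ (fun _ => univ) rfl (by
    intro J
    simpa using h J)
  have hr0 : r ∅ = 0 := by simpa using hcard ∅
  have hne : ∀ i, (L i).Nonempty := by
    intro i
    by_contra hemp
    rw [Finset.not_nonempty_iff_eq_empty] at hemp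
    have := hL {i}
    have hz : ∀ c : Fin k, ({i} : Finset ι).filter (fun i => c ∈ L i) = ∅ := by
      intro c
      rw [Finset.filter_eq_empty_iff]
      intro x hx
      rw [Finset.mem_singleton] at hx
      rw [hx, hemp]
      simp
    simp_rw [hz, hr0] at this
    simp at this
  choose c hc using hne
  have hcs : ∀ i j, j ∈ L i ↔ c i = j := by
    intro i j
    constructor
    · intro hj
      exact Finset.card_le_one.mp (hL1 i) _ (hc i) _ hj
    · rintro rfl
      exact hc i
  refine ⟨c, ?_⟩
  have hU := hL univ
  simp_rw [hcs] at hU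
  have hsumcard : ∑ j : Fin k, #(univ.filter (fun i => c i = j)) = #(univ : Finset ι) := by
    rw [← Finset.card_eq_sum_card_fiberwise]
    intro x _
    simp
  have hle : ∀ j ∈ (univ : Finset (Fin k)),
      r (univ.filter (fun i => c i = j)) ≤ #(univ.filter (fun i => c i = j)) :=
    fun j _ => hcard _
  have heq := (Finset.sum_eq_sum_iff_of_le hle).mp
    (le_antisymm (Finset.sum_le_sum hle) (by rw [hsumcard]; exact hU))
  intro j
  exact (heq j (Finset.mem_univ _)).symm

end abstract

section linear

variable {K V ι : Type*} [Field K] [AddCommGroup V] [Module K V]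

/-- the rank of a finite subfamily. -/
noncomputable def rk (K : Type*) {V ι : Type*} [Field K] [AddCommGroup V] [Module K V]
    (v : ι → V) (J : Finset ι) : ℕ :=
  Module.finrank K (Submodule.span K (v '' (J : Set ι)))

lemma finiteDimensional_span_image (v : ι → V) (J : Finset ι) :
    FiniteDimensional K (Submodule.span K (v '' (J : Set ι))) :=
  FiniteDimensional.span_of_finite K (J.finite_toSet.image v)

lemma rk_mono (v : ι → V) (X Y : Finset ι) (h : X ⊆ Y) : rk K v X ≤ rk K v Y := by
  have := finiteDimensional_span_image (K := K) v Y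
  apply Submodule.finrank_mono
  exact Submodule.span_mono (Set.image_mono (by exact_mod_cast h))

lemma rk_submodular [DecidableEq ι] (v : ι → V) (X Y : Finset ι) :
    rk K v (X ∪ Y) + rk K v (X ∩ Y) ≤ rk K v X + rk K v Y := by
  have hX := finiteDimensional_span_image (K := K) v X
  have hY := finiteDimensional_span_image (K := K) v Y
  unfold rk
  rw [Finset.coe_union, Set.image_union, Submodule.span_union]
  rw [← Submodule.finrank_sup_add_finrank_inf_eq (Submodule.span K (v '' (X : Set ι)))]
  gcongr
  have : FiniteDimensional K (Submodule.span K (v '' (X : Set ι)) ⊓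
      Submodule.span K (v '' (Y : Set ι)) : Submodule K V) :=
    Submodule.finiteDimensional_inf_left _ _
  apply Submodule.finrank_mono
  apply le_inf
  · exact Submodule.span_mono (Set.image_mono (by simp))
  · exact Submodule.span_mono (Set.image_mono (by simp))

lemma rk_le_card (v : ι → V) (X : Finset ι) : rk K v X ≤ #X := by
  classical
  unfold rk
  have h : (v '' (X : Set ι)) = ((X.image v : Finset V) : Set V) := by simp
  rw [h]
  exact (finrank_span_finset_le_card _).trans Finset.card_image_le

lemma linearIndependent_of_rk (v : ι → V) (X : Finset ι) (h : #X ≤ rk K v X) :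
    LinearIndependent K (fun i : X => v i) := by
  classical
  rw [linearIndependent_iff_card_le_finrank_span]
  rw [Fintype.card_coe]
  have hr : Set.range (fun i : X => v i) = v '' (X : Set ι) := by
    ext x
    simp
  rw [hr]
  exact h

/-- Rado-Horn theorem. -/
theorem rado_horn [Fintype ι] [DecidableEq ι] (v : ι → V) (k : ℕ)
    (h : ∀ J : Finset ι, #J ≤ k * rk K v J) :
    ∃ c : ι → Fin k, ∀ j : Fin k,
      LinearIndependent K (fun i : (univ.filter (fun i => c i = j) : Finset ι) => v i) := by
  obtain ⟨c, hc⟩ := exists_partition (k := k) (rk K v) (rk_mono v) (rk_submodular v) (rk_le_card v) h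
  exact ⟨c, fun j => linearIndependent_of_rk v _ (hc j).le⟩

/-- Peeling: if a finite family spans a space of dimension larger than `card / k`, then all members
outside a proper subfamily `T` can be coloured with `k` colours such that each colour class is
linearly independent modulo the span of `T`. -/
theorem peel [Fintype ι] [DecidableEq ι] (v : ι → V) (k : ℕ)
    (h : Fintype.card ι < k * rk K v univ) :
    ∃ T : Finset ι, T ≠ univ ∧ ∃ c : ι → Fin k, ∀ j : Fin k,
      ∀ a : ι → K, (∑ i ∈ univ.filter (fun i => i ∉ T ∧ c i = j), a i • v i) ∈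
        Submodule.span K (v '' (T : Set ι)) → ∀ i, i ∉ T → c i = j → a i = 0 := by
  classical
  -- `T` maximises `card T - k * rank T`
  obtain ⟨T, -, hT⟩ := Finset.exists_max_image (univ : Finset (Finset ι))
    (fun T => ((#T : ℤ) - k * (rk K v T : ℤ))) ⟨∅, Finset.mem_univ _⟩
  have hTne : T ≠ univ := by
    rintro rfl
    have h0 := hT ∅ (Finset.mem_univ _)
    have hr0 : rk K v (∅ : Finset ι) = 0 := by simpa using rk_le_card (K := K) v ∅
    rw [hr0, Finset.card_univ] at h0
    simp only [Finset.card_empty] at h0
    push_cast at h0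
    have h' : (Fintype.card ι : ℤ) < k * (rk K v univ : ℤ) := by exact_mod_cast h
    linarith
  refine ⟨T, hTne, ?_⟩
  set W := Submodule.span K (v '' (T : Set ι)) with hW
  let w : {i : ι // i ∉ T} → V ⧸ W := fun i => W.mkQ (v i)
  have hTfin : FiniteDimensional K W := finiteDimensional_span_image v T
  have hrank : ∀ J : Finset {i : ι // i ∉ T},
      rk K v (T ∪ J.map (Function.Embedding.subtype _)) ≤ rk K v T + rk K w J := by
    intro J
    have hJfin := finiteDimensional_span_image (K := K) w J
    set J' := J.map (Function.Embedding.subtype _) with hJ'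
    have h1 : Submodule.map W.mkQ (Submodule.span K (v '' ((T ∪ J' : Finset ι) : Set ι)))
        ≤ Submodule.span K (w '' (J : Set _)) := by
      rw [Submodule.map_span, Submodule.span_le]
      rintro x ⟨y, ⟨i, hi, rfl⟩, rfl⟩
      rw [Finset.coe_union] at hi
      rcases hi with hi | hi
      · have : W.mkQ (v i) = 0 := by
          rw [Submodule.mkQ_apply, Submodule.Quotient.mk_eq_zero]
          exact Submodule.subset_span ⟨i, hi, rfl⟩
        rw [this]
        exact Submodule.zero_mem _
      · simp only [hJ', Finset.coe_map, Function.Embedding.subtype_apply, Set.mem_image,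
          Finset.mem_coe, Subtype.exists, exists_and_right, exists_eq_right] at hi
        obtain ⟨h2, h3⟩ := hi
        exact Submodule.subset_span ⟨⟨i, h2⟩, h3, rfl⟩
    have hUfin := finiteDimensional_span_image (K := K) v (T ∪ J')
    set U := Submodule.span K (v '' ((T ∪ J' : Finset ι) : Set ι)) with hU
    have h2 := LinearMap.finrank_range_add_finrank_ker (W.mkQ.domRestrict U)
    have h3 : Module.finrank K (LinearMap.range (W.mkQ.domRestrict U)) ≤ rk K w J := by
      apply Submodule.finrank_mono
      rw [LinearMap.range_domRestrict]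
      exact h1
    have h4 : Module.finrank K (LinearMap.ker (W.mkQ.domRestrict U)) ≤ rk K v T := by
      have hmap : Submodule.map U.subtype (LinearMap.ker (W.mkQ.domRestrict U)) ≤ W := by
        rintro x ⟨y, hy, rfl⟩
        have hy' : W.mkQ (y : V) = 0 := hy
        rw [Submodule.mkQ_apply, Submodule.Quotient.mk_eq_zero] at hy'
        exact hy'
      have h5 := Submodule.finrank_mono hmap
      rwa [Submodule.finrank_map_subtype_eq] at h5
    show Module.finrank K U ≤ _
    omega
  have hw : ∀ J : Finset {i : ι // i ∉ T}, #J ≤ k * rk K w J := by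
    intro J
    have h1 := hT (T ∪ J.map (Function.Embedding.subtype _)) (Finset.mem_univ _)
    have h2 : #(T ∪ J.map (Function.Embedding.subtype _)) = #T + #J := by
      rw [Finset.card_union_of_disjoint, Finset.card_map]
      rw [Finset.disjoint_left]
      intro i hi hi'
      rw [Finset.mem_map] at hi'
      obtain ⟨⟨x, hx⟩, -, rfl⟩ := hi'
      exact hx hi
    have h3 := hrank J
    rw [h2] at h1
    push_cast at h1
    have h4 : ((rk K v (T ∪ J.map (Function.Embedding.subtype _)) : ℕ) : ℤ)
        ≤ rk K v T + rk K w J := by exact_mod_cast h3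
    have h5 : (k : ℤ) * ((rk K v (T ∪ J.map (Function.Embedding.subtype _)) : ℕ) : ℤ)
        ≤ k * (rk K v T + rk K w J) := mul_le_mul_of_nonneg_left h4 (by positivity)
    have h6 : (#J : ℤ) ≤ k * rk K w J := by linarith
    exact_mod_cast h6
  obtain ⟨c, hc⟩ := rado_horn w k hw
  have hk : 0 < k := by
    rcases Nat.eq_zero_or_pos k with h0 | h0
    · rw [h0] at h; simp at h
    · exact h0
  refine ⟨fun i => if hi : i ∈ T then ⟨0, hk⟩ else c ⟨i, hi⟩, ?_⟩
  intro j a ha i hi hij
  -- translate to the quotient
  have hsum : ∑ x ∈ (univ.filter (fun x => c x = j) : Finset {i : ι // i ∉ T}), a x • w x = 0 := by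
    have h1 : W.mkQ (∑ i ∈ univ.filter (fun i => i ∉ T ∧
        (if hi : i ∈ T then (⟨0, hk⟩ : Fin k) else c ⟨i, hi⟩) = j), a i • v i) = 0 := by
      rw [Submodule.mkQ_apply, Submodule.Quotient.mk_eq_zero]
      exact ha
    rw [map_sum] at h1
    rw [← h1]
    symm
    refine Finset.sum_bij' (fun x hx => (⟨x, (Finset.mem_filter.mp hx).2.1⟩ : {i : ι // i ∉ T}))
      (fun x _ => (x : ι)) ?_ ?_ ?_ ?_ ?_
    · intro x hx
      have := (Finset.mem_filter.mp hx).2
      rw [dif_neg this.1] at this
      simpa using this.2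
    · intro x hx
      have := (Finset.mem_filter.mp hx).2
      rw [Finset.mem_filter]
      refine ⟨Finset.mem_univ _, x.2, ?_⟩
      rw [dif_neg x.2]
      exact this
    · intro x hx; rfl
    · intro x hx; rfl
    · intro x hx
      show W.mkQ (a x • v x) = a x • W.mkQ (v x)
      rw [map_smul]
  have hli := hc j
  rw [Fintype.linearIndependent_iff] at hli
  have hci : c ⟨i, hi⟩ = j := by
    simpa [hi] using hij
  have := hli (fun x => a x.1) (by
    rw [Finset.sum_coe_sort (univ.filter (fun x => c x = j)) (fun x => a x • w x)]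
    exact hsum) ⟨⟨i, hi⟩, by simp [hci]⟩
  exact this

end linear

end Pool.Agent.Helper72.Sidon
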